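import Pool.Agent.N821.CS.Stm

/-!
# Project CS (helper821), leaf DA (helper492): a small distance makes matrix entries close
-/

set_option autoImplicit false

namespace Pool.Agent.N492.CS.DA

open scoped InnerProductSpace NNReal Topology
open Filter TopologicalSpace Pool.Agent.N821.CS

universe u

variable {H : Type u} [NormedAddCommGroup H] [InnerProductSpace ℂ H]

theorem entry_le (T S : CSG H) (t : ℝ≥0) (u v : H) :
    ‖⟪(T.op t - S.op t) u, v⟫_ℂ‖ ≤ 2 * (‖u‖ * ‖v‖) := by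
  have h1 : ‖T.op t - S.op t‖ ≤ 2 := by
    have := norm_sub_le (T.op t) (S.op t)
    have := T.norm_le t
    have := S.norm_le t
    linarith
  have h2 : ‖(T.op t - S.op t) u‖ ≤ 2 * ‖u‖ :=
    (ContinuousLinearMap.le_opNorm _ _).trans (mul_le_mul_of_nonneg_right h1 (norm_nonneg _))
  calc ‖⟪(T.op t - S.op t) u, v⟫_ℂ‖ ≤ ‖(T.op t - S.op t) u‖ * ‖v‖ := norm_inner_le_norm _ _
    _ ≤ 2 * ‖u‖ * ‖v‖ := mul_le_mul_of_nonneg_right h2 (norm_nonneg _)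
    _ = 2 * (‖u‖ * ‖v‖) := by ring

theorem bdd (x : ℕ → H) (T S : CSG H) (n i j : ℕ) :
    BddAbove (Set.range fun t : {t : ℝ≥0 // t ≤ n} => ‖⟪(T.op t - S.op t) (x i), x j⟫_ℂ‖) := by
  refine ⟨2 * (‖x i‖ * ‖x j‖), ?_⟩
  rintro _ ⟨t, rfl⟩
  exact entry_le T S t (x i) (x j)

theorem term_nonneg (x : ℕ → H) (T S : CSG H) (n i j : ℕ) : 0 ≤ term x T S n i j := by
  unfold term
  refine div_nonneg (Real.iSup_nonneg fun t => norm_nonneg _) (by positivity)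

theorem term_le (x : ℕ → H) (T S : CSG H) (n i j : ℕ) : term x T S n i j ≤ 2 := by
  unfold term
  have h1 : (⨆ t : {t : ℝ≥0 // t ≤ n}, ‖⟪(T.op t - S.op t) (x i), x j⟫_ℂ‖) ≤
      2 * (‖x i‖ * ‖x j‖) :=
    Real.iSup_le (fun t => entry_le T S t (x i) (x j)) (by positivity)
  exact div_le_of_le_mul₀ (by positivity) (by norm_num) h1

theorem summ (x : ℕ → H) (T S : CSG H) : Summable fun p : ℕ × ℕ × ℕ =>
    (1 / 2 : ℝ) ^ ((p.1 + 1) + (p.2.1 + 1) + (p.2.2 + 1)) *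
      term x T S (p.1 + 1) p.2.1 p.2.2 := by
  have g : Summable fun n : ℕ => (1 / 2 : ℝ) ^ (n + 1) := by
    have := (summable_geometric_of_lt_one (r := (1 / 2 : ℝ)) (by norm_num) (by norm_num))
    exact (summable_nat_add_iff 1).2 this
  have g0 : ∀ n : ℕ, 0 ≤ (1 / 2 : ℝ) ^ (n + 1) := fun n => by positivity
  have g2 : Summable fun q : ℕ × ℕ => (1 / 2 : ℝ) ^ (q.1 + 1) * (1 / 2 : ℝ) ^ (q.2 + 1) :=
    g.mul_of_nonneg g g0 g0
  have g3 : Summable fun p : ℕ × ℕ × ℕ => (1 / 2 : ℝ) ^ (p.1 + 1) *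
      ((1 / 2 : ℝ) ^ (p.2.1 + 1) * (1 / 2 : ℝ) ^ (p.2.2 + 1)) :=
    g.mul_of_nonneg g2 g0 fun q => mul_nonneg (g0 _) (g0 _)
  refine Summable.of_nonneg_of_le (fun p => mul_nonneg (by positivity) (term_nonneg _ _ _ _ _ _))
    (fun p => ?_) (g3.mul_left 2)
  have h1 := term_le x T S (p.1 + 1) p.2.1 p.2.2
  have h2 : (0 : ℝ) ≤ (1 / 2 : ℝ) ^ ((p.1 + 1) + (p.2.1 + 1) + (p.2.2 + 1)) := by positivity
  calc (1 / 2 : ℝ) ^ ((p.1 + 1) + (p.2.1 + 1) + (p.2.2 + 1)) * term x T S (p.1 + 1) p.2.1 p.2.2 ≤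
      (1 / 2 : ℝ) ^ ((p.1 + 1) + (p.2.1 + 1) + (p.2.2 + 1)) * 2 :=
        mul_le_mul_of_nonneg_left h1 h2
    _ = 2 * ((1 / 2 : ℝ) ^ (p.1 + 1) *
      ((1 / 2 : ℝ) ^ (p.2.1 + 1) * (1 / 2 : ℝ) ^ (p.2.2 + 1))) := by
        rw [pow_add, pow_add]
        ring

theorem entry_le_d (x : ℕ → H) (hx : ∀ i, x i ≠ 0) (T S : CSG H) (N i j : ℕ) (t : ℝ≥0)
    (ht : t ≤ N) : ‖⟪(T.op t - S.op t) (x i), x j⟫_ℂ‖ ≤
      (2 : ℝ) ^ ((N + 1) + (i + 1) + (j + 1)) * (‖x i‖ * ‖x j‖) * d x T S := by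
  have h1 : (1 / 2 : ℝ) ^ ((N + 1) + (i + 1) + (j + 1)) * term x T S (N + 1) i j ≤ d x T S := by
    unfold d
    exact (summ x T S).le_tsum (N, i, j) fun p _ =>
      mul_nonneg (by positivity) (term_nonneg _ _ _ _ _ _)
  have h2 : ‖⟪(T.op t - S.op t) (x i), x j⟫_ℂ‖ ≤
      ⨆ t : {t : ℝ≥0 // t ≤ ((N + 1 : ℕ) : ℝ≥0)}, ‖⟪(T.op t - S.op t) (x i), x j⟫_ℂ‖ :=
    le_ciSup (bdd x T S (N + 1) i j) ⟨t, ht.trans (by push_cast; exact le_self_add)⟩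
  have hi : 0 < ‖x i‖ := norm_pos_iff.2 (hx i)
  have hj : 0 < ‖x j‖ := norm_pos_iff.2 (hx j)
  have h3 : (⨆ t : {t : ℝ≥0 // t ≤ ((N + 1 : ℕ) : ℝ≥0)}, ‖⟪(T.op t - S.op t) (x i), x j⟫_ℂ‖) =
      term x T S (N + 1) i j * (‖x i‖ * ‖x j‖) := by
    unfold term
    rw [div_mul_cancel₀ _ (by positivity)]
  rw [h3] at h2
  have h4 : (2 : ℝ) ^ ((N + 1) + (i + 1) + (j + 1)) * (1 / 2 : ℝ) ^ ((N + 1) + (i + 1) + (j + 1)) =
      1 := by
    rw [← mul_pow]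
    norm_num
  have h5 : term x T S (N + 1) i j ≤ (2 : ℝ) ^ ((N + 1) + (i + 1) + (j + 1)) * d x T S := by
    calc term x T S (N + 1) i j = (2 : ℝ) ^ ((N + 1) + (i + 1) + (j + 1)) *
          ((1 / 2 : ℝ) ^ ((N + 1) + (i + 1) + (j + 1)) * term x T S (N + 1) i j) := by
          rw [← mul_assoc, h4, one_mul]
      _ ≤ _ := mul_le_mul_of_nonneg_left h1 (by positivity)
  calc _ ≤ _ := h2
    _ ≤ (2 : ℝ) ^ ((N + 1) + (i + 1) + (j + 1)) * d x T S * (‖x i‖ * ‖x j‖) :=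
        mul_le_mul_of_nonneg_right h5 (by positivity)
    _ = _ := by ring

theorem t : Pool.Agent.N821.CS.S_DA.{u} := by
  intro H _ _ x hx N ε hε
  set c : ℕ → ℕ → ℝ := fun i j => (2 : ℝ) ^ ((N + 1) + (i + 1) + (j + 1)) * (‖x i‖ * ‖x j‖)
    with hc
  have hc0 : ∀ i j, 0 ≤ c i j := fun i j => by rw [hc]; positivity
  set C : ℝ := 1 + ∑ i ∈ Finset.range N, ∑ j ∈ Finset.range N, c i j with hC
  have hC0 : 0 < C := by
    have : 0 ≤ ∑ i ∈ Finset.range N, ∑ j ∈ Finset.range N, c i j :=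
      Finset.sum_nonneg fun i _ => Finset.sum_nonneg fun j _ => hc0 i j
    linarith
  have hcC : ∀ i < N, ∀ j < N, c i j ≤ C := by
    intro i hi j hj
    have h1 : c i j ≤ ∑ j ∈ Finset.range N, c i j :=
      Finset.single_le_sum (fun j _ => hc0 i j) (Finset.mem_range.2 hj)
    have h2 : ∑ j ∈ Finset.range N, c i j ≤
        ∑ i ∈ Finset.range N, ∑ j ∈ Finset.range N, c i j :=
      Finset.single_le_sum (f := fun i => ∑ j ∈ Finset.range N, c i j)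
        (fun i _ => Finset.sum_nonneg fun j _ => hc0 i j) (Finset.mem_range.2 hi)
    linarith
  refine ⟨ε / C, div_pos hε hC0, fun T S hd i hi j hj t ht => ?_⟩
  have h1 := entry_le_d x hx T S N i j t ht
  have hd0 : 0 ≤ d x T S := by
    unfold d
    exact tsum_nonneg fun p => mul_nonneg (by positivity) (term_nonneg _ _ _ _ _ _)
  calc _ ≤ c i j * d x T S := h1
    _ ≤ C * d x T S := mul_le_mul_of_nonneg_right (hcC i hi j hj) hd0
    _ < C * (ε / C) := mul_lt_mul_of_pos_left hd hC0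
    _ = ε := by field_simp

end Pool.Agent.N492.CS.DA
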